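import Mathlib
import Pool.Agent.H42R3.FS5
import Pool.Agent.H42R3.FS6

set_option autoImplicit false
open Pool.Agent.H42R3.FS

namespace Pool.Agent.Results.MP_234613_al.NotSplit

universe v

/-- For every prime `p` there is a one-dimensional Noetherian local domain of characteristic `p`
which is `F`-pure and has a nonzero `p⁻¹`-linear map, but is not Frobenius split. -/
theorem result (p : ℕ) [Fact p.Prime] :
    ∃ (R : Type) (_ : CommRing R) (_ : CharP R p),
      IsDomain R ∧ IsLocalRing R ∧ IsNoetherianRing R ∧ ringKrullDim R = 1 ∧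
      IsFPure.{v} p R ∧
      (∃ φ : Fs p R →ₗ[R] R, φ ≠ 0) ∧
      ¬ ∃ φ : Fs p R →ₗ[R] R, φ 1 = 1 :=
  ⟨RR (dat p), inferInstance, inferInstance, inferInstance, inferInstance, inferInstance, dim_one,
    isFPure, ⟨nz (dat p), nz_ne⟩, fun ⟨φ, h⟩ => no_split φ h⟩

end Pool.Agent.Results.MP_234613_al.NotSplit
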